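import Pool.Agent.H68.QT.Targets
import Pool.Agent.H68.QC.All

/-!
# Towers: one quantifier
-/

set_option autoImplicit false

namespace Pool.Agent.H96.QT

open Finset Pool.Agent.H68.QT Pool.Agent.H68.QC Pool.Agent.H70.OQ Pool.Agent.H70.RK
  Pool.Agent.H6.NB

theorem pf_BTA (hTWL : T_TWL) (hTWR : T_TWR) (hBT0 : T_BT0) : T_BTA := by
  intro X Y _ _ _ _ _ _ m W G' K m0 T q q' hT hW hq hq2 hqT hq' hWq hG h576 hm0
  have hne : Nonempty (Node X Y 0) := inferInstanceAs (Nonempty X)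
  have hcard : 1 ≤ Fintype.card (Node X Y 0) := Fintype.card_pos
  have hW1 : (1 : ℝ) ≤ W := by exact_mod_cast hW
  have hq1 : q' ≤ 1 := by nlinarith
  have hE : 0 ≤ 2 * eC m 0 W := by
    unfold eC
    positivity
  have h0 : TabB X Y true K 0 (Fintype.card (Node X Y 0)) (TwD (Node X Y 1) m T W W 1)
      (2 * eC m 0 W) := by
    refine Pool.Agent.H42.QC.pf_GS0 Pool.Agent.H91.QC.pf_CH0 X Y true K m0
      (Fintype.card (Node X Y 0)) q' (eC m 0 W) (TwC (Node X Y 0) m T W 0)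
      (TwD (Node X Y 1) m T W W 1) hq'.le hq1 hcard hm0 ?_ ?_
    · intro V1' V0' hV
      exact hBT0 X Y m W m0 T V1' V0' hT h576 hV
    · intro L V1 V0 hV hL
      exact hTWR (Node X Y 0) (Y 0) m 0 W W W T q' L V1 V0 hW le_rfl le_rfl hq' hWq hL hV
  have h := all_GSL X Y true K 0 (Fintype.card (Node X Y 0)) (G' * Fintype.card (Node X Y 0)) G' q
    (eL m 1 W) (2 * eC m 0 W) (TwD (Node X Y 1) m T W W 1) (TwC (Node X Y 1) m T W 1)
    hq.le (by linarith) hE hcard (Nat.mul_pos hG hcard) le_rfl h0 ?_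
  · exact h
  · intro V1 V0 hC
    exact hTWL (Node X Y 1) m 1 W W T q V1 V0 hT hW hW hq hq2 hqT hC

end Pool.Agent.H96.QT
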